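import Mathlib
import Pool.Agent.H57R3.VJ.L
import Pool.Agent.Y733.UD.Low

/-!
# Elements with given support, uniformly in all number fields

The constants depend on the number field only through its degree.
-/

set_option autoImplicit false

open NumberField Height Finset IsDedekindDomain
open scoped Classical

namespace Pool.Agent.R366.UC

open Pool.Agent.H57R3.VJ

section One

variable {K : Type} [Field K] [NumberField K]

lemma fv_eq (v : HeightOneSpectrum (𝓞 K)) (x : K) :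
    Pool.Agent.H691R3.fv v x = FinitePlace.mk v x := rfl

lemma fv_unit (v : HeightOneSpectrum (𝓞 K)) (ε : (𝓞 K)ˣ) :
    Pool.Agent.H691R3.fv v ((ε : 𝓞 K) : K) = 1 := by
  have h1 := Pool.Agent.Y733.UD.fv_int_le v (ε : 𝓞 K)
  have h2 := Pool.Agent.Y733.UD.fv_int_le v ((ε⁻¹ : (𝓞 K)ˣ) : 𝓞 K)
  have h3 : ((ε : 𝓞 K) : K) * (((ε⁻¹ : (𝓞 K)ˣ) : 𝓞 K) : K) = 1 := by
    rw [← map_mul, Units.mul_inv, map_one]
  have h4 : Pool.Agent.H691R3.fv v ((ε : 𝓞 K) : K) *
      Pool.Agent.H691R3.fv v (((ε⁻¹ : (𝓞 K)ˣ) : 𝓞 K) : K) = 1 := by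
    rw [← map_mul, h3, map_one]
  have h5 := (Pool.Agent.H691R3.fv v).nonneg ((ε : 𝓞 K) : K)
  have h6 := (Pool.Agent.H691R3.fv v).nonneg (((ε⁻¹ : (𝓞 K)ˣ) : 𝓞 K) : K)
  nlinarith

lemma sum_posLog_le (u : K) : ∑ w : InfinitePlace K, (w.mult : ℝ) * Real.posLog (w u) ≤
    logHeight₁ u := by
  rw [NumberField.logHeight₁_eq]
  have h3 : 0 ≤ ∑ᶠ v : FinitePlace K, Real.posLog (v u) := finsum_nonneg fun v => Real.posLog_nonneg
  linarith

lemma sum_abs_log_le (u : K) :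
    ∑ w : InfinitePlace K, (w.mult : ℝ) * |Real.log (w u)| ≤ 2 * logHeight₁ u := by
  have h1 := sum_posLog_le u
  have h2 := sum_posLog_le u⁻¹
  rw [logHeight₁_inv] at h2
  have h3 : ∀ w : InfinitePlace K, (w.mult : ℝ) * |Real.log (w u)| =
      (w.mult : ℝ) * Real.posLog (w u) + (w.mult : ℝ) * Real.posLog (w u⁻¹) := by
    intro w
    rw [← mul_add]
    congr 1
    unfold Real.posLog
    rw [map_inv₀, Real.log_inv]
    rcases le_total 0 (Real.log (w u)) with h | h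
    · rw [abs_of_nonneg h, max_eq_right h, max_eq_left (by linarith), add_zero]
    · rw [abs_of_nonpos h, max_eq_left h, max_eq_right (by linarith), zero_add]
  rw [Finset.sum_congr rfl fun w _ => h3 w, Finset.sum_add_distrib]
  linarith

end One

/-- units of bounded height -/
theorem units_unif {δ : ℝ} (hδ : 0 < δ) : ∃ F : ℝ, 0 ≤ F ∧ ∀ (K : Type) [Field K] [NumberField K],
    ∀ X : ℝ, 1 ≤ X → ∀ U : Finset (𝓞 K)ˣ, (∀ ε ∈ U, mulHeight₁ ((ε : 𝓞 K) : K) ≤ X) →
      (U.card : ℝ) ≤ Real.exp (Module.finrank ℚ K * F) * X ^ δ := by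
  obtain ⟨F, hF, h⟩ := Pool.Agent.Y733.UD.units_card (ε := δ / 2) (half_pos hδ)
  refine ⟨F, hF, fun K _ _ X hX U hU => ?_⟩
  have hX0 : 0 < X := by linarith
  have hinj : Set.InjOn (fun ε : (𝓞 K)ˣ => ((ε : 𝓞 K) : K)) (U : Set (𝓞 K)ˣ) := by
    intro a _ b _ hab
    exact Units.ext (RingOfIntegers.coe_injective hab)
  rw [← Finset.card_image_of_injOn hinj]
  have h1 := h K (2 * Real.log X) (U.image fun ε : (𝓞 K)ˣ => ((ε : 𝓞 K) : K)) (by
    intro y hy
    obtain ⟨ε, hε, rfl⟩ := Finset.mem_image.1 hy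
    refine ⟨?_, fun v => fv_unit v ε, ?_⟩
    · have : (ε : 𝓞 K) ≠ 0 := ε.ne_zero
      exact fun h0 => this (RingOfIntegers.coe_injective (by simpa using h0))
    · refine (sum_abs_log_le _).trans ?_
      have h2 : logHeight₁ ((ε : 𝓞 K) : K) ≤ Real.log X := by
        rw [logHeight₁_eq_log_mulHeight₁]
        exact Real.log_le_log (mulHeight₁_pos _) (hU ε hε)
      linarith)
  refine h1.trans (le_of_eq ?_)
  rw [Real.exp_add, Real.rpow_def_of_pos hX0]
  congr 2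
  ring

/-- finite places of small norm -/
theorem places_unif (T : ℝ) : ∀ (K : Type) [Field K] [NumberField K]
    (V : Finset (FinitePlace K)), (∀ v ∈ V, NN v ≤ T) →
      (V.card : ℝ) ≤ Module.finrank ℚ K * ((⌊T⌋₊ : ℝ) + 1) := by
  intro K _ _ V hV
  have h1 := Finset.card_le_mul_card_image (f := fun v : FinitePlace K =>
    Pool.Agent.W222.UABC.pv v.maximalIdeal) V (Module.finrank ℚ K) (by
      intro p _
      have hinj : Set.InjOn (fun v : FinitePlace K => v.maximalIdeal)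
          ((V.filter fun v => Pool.Agent.W222.UABC.pv v.maximalIdeal = p : Finset _) : Set _) :=
        fun a _ b _ hab => FinitePlace.maximalIdeal_injective hab
      rw [← Finset.card_image_of_injOn hinj]
      refine Pool.Agent.W222.UABC.fibre_card p _ ?_
      intro v hv
      obtain ⟨u, hu, rfl⟩ := Finset.mem_image.1 hv
      exact (Finset.mem_filter.1 hu).2)
  have h2 : (V.image fun v : FinitePlace K => Pool.Agent.W222.UABC.pv v.maximalIdeal).card ≤
      ⌊T⌋₊ + 1 := by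
    have h3 : (V.image fun v : FinitePlace K => Pool.Agent.W222.UABC.pv v.maximalIdeal) ⊆
        Finset.range (⌊T⌋₊ + 1) := by
      intro p hp
      obtain ⟨v, hv, rfl⟩ := Finset.mem_image.1 hp
      rw [Finset.mem_range, Nat.lt_succ_iff]
      apply Nat.le_floor
      have h4 := Pool.Agent.W222.UABC.pv_le v.maximalIdeal
      have h5 : (Pool.Agent.W222.UABC.pv v.maximalIdeal : ℝ) ≤ NN v := Nat.cast_le.2 h4
      exact h5.trans (hV v hv)
    have := Finset.card_le_card h3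
    rwa [Finset.card_range] at this
  have h3 : (V.card : ℝ) ≤ (Module.finrank ℚ K : ℝ) *
      (V.image fun v : FinitePlace K => Pool.Agent.W222.UABC.pv v.maximalIdeal).card := by
    exact_mod_cast h1
  refine h3.trans (mul_le_mul_of_nonneg_left ?_ (Nat.cast_nonneg _))
  exact_mod_cast h2

/-- `∏ 2/(1-N^{-δ}) ≤ C ∏ N^δ` -/
theorem prod_unif {δ : ℝ} (hδ : 0 < δ) : ∃ F : ℝ, 0 ≤ F ∧ ∀ (K : Type) [Field K] [NumberField K]
    (Q : Finset (FinitePlace K)),
    ∏ v ∈ Q, (2 * (1 - NN v ^ (-δ))⁻¹) ≤ Real.exp (Module.finrank ℚ K * F) *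
      ∏ v ∈ Q, NN v ^ δ := by
  set G : ℝ := max 1 (2 * (1 - (2:ℝ) ^ (-δ))⁻¹) with hG
  have hG1 : 1 ≤ G := le_max_left _ _
  set T : ℝ := (3:ℝ) ^ (1 / δ) with hT
  refine ⟨((⌊T⌋₊ : ℝ) + 1) * Real.log G, mul_nonneg (by positivity) (Real.log_nonneg hG1), ?_⟩
  intro K _ _ Q
  set F := (finite_NN (K := K) T).toFinset with hF
  have hlt : ∀ v : FinitePlace K, NN v ^ (-δ) < 1 := fun v =>
    Real.rpow_lt_one_of_one_lt_of_neg (by linarith [two_le_NN v]) (by linarith)
  have hpos : ∀ v : FinitePlace K, 0 < 2 * (1 - NN v ^ (-δ))⁻¹ := fun v => by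
    have := hlt v
    have : 0 < 1 - NN v ^ (-δ) := by linarith
    positivity
  have key : ∀ v : FinitePlace K, 2 * (1 - NN v ^ (-δ))⁻¹ ≤ (if v ∈ F then G else 1) * NN v ^ δ := by
    intro v
    have h2 := two_le_NN v
    have hNd : 1 ≤ NN v ^ δ := Real.one_le_rpow (by linarith) hδ.le
    split_ifs with hv
    · have h3 : NN v ^ (-δ) ≤ (2:ℝ) ^ (-δ) := Real.rpow_le_rpow_of_nonpos (by norm_num) h2 (by linarith)
      have h4 : (2:ℝ) ^ (-δ) < 1 := Real.rpow_lt_one_of_one_lt_of_neg (by norm_num) (by linarith)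
      have h5 : (1 - NN v ^ (-δ))⁻¹ ≤ (1 - (2:ℝ) ^ (-δ))⁻¹ := inv_anti₀ (by linarith) (by linarith)
      calc 2 * (1 - NN v ^ (-δ))⁻¹ ≤ 2 * (1 - (2:ℝ) ^ (-δ))⁻¹ := by linarith
        _ ≤ G := le_max_right _ _
        _ ≤ G * NN v ^ δ := le_mul_of_one_le_right (by linarith) hNd
    · rw [one_mul]
      have h3 : (3:ℝ) ^ (1 / δ) < NN v := by
        by_contra h
        apply hv
        rw [hF, Set.Finite.mem_toFinset]
        exact not_lt.1 h
      have h4 : 3 < NN v ^ δ := by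
        have := Real.rpow_lt_rpow (by positivity) h3 hδ
        rwa [← Real.rpow_mul (by norm_num), one_div_mul_cancel hδ.ne', Real.rpow_one] at this
      have h5 : NN v ^ (-δ) = (NN v ^ δ)⁻¹ := Real.rpow_neg (NN_pos v).le δ
      rw [h5]
      have h6 : 0 < NN v ^ δ := by linarith
      have h7 : 0 < 1 - (NN v ^ δ)⁻¹ := by
        have := inv_lt_one_of_one_lt₀ (a := NN v ^ δ) (by linarith)
        linarith
      rw [← div_eq_mul_inv, div_le_iff₀ h7]
      have : NN v ^ δ * (1 - (NN v ^ δ)⁻¹) = NN v ^ δ - 1 := by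
        rw [mul_sub, mul_inv_cancel₀ h6.ne', mul_one]
      linarith
  have hFc : (F.card : ℝ) ≤ Module.finrank ℚ K * ((⌊T⌋₊ : ℝ) + 1) := by
    refine places_unif T K F ?_
    intro v hv
    rw [hF, Set.Finite.mem_toFinset] at hv
    exact hv
  calc ∏ v ∈ Q, (2 * (1 - NN v ^ (-δ))⁻¹) ≤ ∏ v ∈ Q, ((if v ∈ F then G else 1) * NN v ^ δ) :=
        Finset.prod_le_prod (fun v _ => (hpos v).le) fun v _ => key v
    _ = (∏ v ∈ Q, (if v ∈ F then G else 1)) * ∏ v ∈ Q, NN v ^ δ := Finset.prod_mul_distrib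
    _ ≤ G ^ F.card * ∏ v ∈ Q, NN v ^ δ := by
        apply mul_le_mul_of_nonneg_right _ (Finset.prod_nonneg fun v _ => Real.rpow_nonneg (NN_pos v).le _)
        rw [Finset.prod_ite, Finset.prod_const, Finset.prod_const_one, mul_one]
        apply pow_le_pow_right₀ hG1
        apply Finset.card_le_card
        intro v hv
        exact (mem_filter.1 hv).2
    _ ≤ _ := by
        apply mul_le_mul_of_nonneg_right _ (Finset.prod_nonneg fun v _ => Real.rpow_nonneg (NN_pos v).le _)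
        have e : G ^ F.card = Real.exp (F.card * Real.log G) := by
          rw [Real.exp_nat_mul, Real.exp_log (by linarith)]
        rw [e]
        apply Real.exp_le_exp.2
        rw [← mul_assoc]
        exact mul_le_mul_of_nonneg_right hFc (Real.log_nonneg hG1)

/-- **Number of elements of bounded height with prescribed support**, uniformly. -/
theorem supp_unif {δ : ℝ} (hδ : 0 < δ) : ∃ A : ℝ, 0 ≤ A ∧ ∀ (K : Type) [Field K] [NumberField K],
    ∀ X : ℝ, 1 ≤ X → ∀ Q : Finset (FinitePlace K),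
    ∀ U : Finset K, (∀ u ∈ U, u ≠ 0 ∧ mulHeight₁ u ≤ X ∧ ∀ v : FinitePlace K, v ∉ Q → v u = 1) →
      (U.card : ℝ) ≤ Real.exp (Module.finrank ℚ K * A) * X ^ δ * (∏ v ∈ Q, NN v) ^ δ := by
  have hδ4 : 0 < δ / 4 := by positivity
  obtain ⟨F1, hF1, h1'⟩ := units_unif hδ4
  obtain ⟨F2, hF2, h2'⟩ := prod_unif hδ4
  refine ⟨F1 + F2, by positivity, fun K _ _ X hX Q U hU => ?_⟩
  have h1 := h1' K
  have h2 := h2' K
  obtain ⟨C1, hC1d⟩ : ∃ C1 : ℝ, C1 = Real.exp (Module.finrank ℚ K * F1) := ⟨_, rfl⟩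
  obtain ⟨C2, hC2d⟩ : ∃ C2 : ℝ, C2 = Real.exp (Module.finrank ℚ K * F2) := ⟨_, rfl⟩
  have hC1 : 0 < C1 := by rw [hC1d]; exact Real.exp_pos _
  have hC2 : 0 < C2 := by rw [hC2d]; exact Real.exp_pos _
  have hCC : Real.exp (Module.finrank ℚ K * (F1 + F2)) = C1 * C2 := by
    rw [hC1d, hC2d, ← Real.exp_add]
    congr 1
    ring
  rw [hCC]
  rw [← hC1d] at h1
  rw [← hC2d] at h2
  have hX2 : 1 ≤ X ^ 2 := one_le_pow₀ hX
  let f : K → (Q → ℤ) := fun u v => ev v.1 u
  set M : ℕ := U.sup fun u => Q.sup fun v => (ev v u).natAbs with hM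
  have hfib : ∀ e ∈ U.image f, (U.filter fun u => f u = e).card ≤ ⌊C1 * (X ^ 2) ^ (δ / 4)⌋₊ := by
    intro e he
    rw [mem_image] at he
    obtain ⟨u0, hu0, rfl⟩ := he
    obtain ⟨hu00, hu0X, hu0Q⟩ := hU u0 hu0
    have hex : ∀ u ∈ U.filter (fun u => f u = f u0), ∃ ε : (𝓞 K)ˣ, ((ε : 𝓞 K) : K) = u * u0⁻¹ := by
      intro u hu
      rw [mem_filter] at hu
      obtain ⟨hu1, hu2⟩ := hu
      obtain ⟨hun, huX, huQ⟩ := hU u hu1
      apply unit_of_one (mul_ne_zero hun (inv_ne_zero hu00))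
      intro v
      rw [map_mul, map_inv₀]
      have hv0 : v u0 ≠ 0 := by
        have := (FinitePlace.pos_iff (w := v) (x := u0)).2 hu00
        exact this.ne'
      by_cases hv : v ∈ Q
      · have : ev v u = ev v u0 := congrFun hu2 ⟨v, hv⟩
        rw [ev_spec v hun, ev_spec v hu00, this, mul_inv_cancel₀]
        exact zpow_ne_zero _ (NN_pos v).ne'
      · rw [huQ v hv, hu0Q v hv]; norm_num
    let g : K → (𝓞 K)ˣ := fun u => if h : ∃ ε : (𝓞 K)ˣ, ((ε : 𝓞 K) : K) = u * u0⁻¹ then h.choose else 1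
    have hg : ∀ u ∈ U.filter (fun u => f u = f u0), ((g u : 𝓞 K) : K) = u * u0⁻¹ := by
      intro u hu
      have h := hex u hu
      show (((if h : ∃ ε : (𝓞 K)ˣ, ((ε : 𝓞 K) : K) = u * u0⁻¹ then h.choose else 1 : (𝓞 K)ˣ) : 𝓞 K) : K) = _
      rw [dif_pos h]
      exact h.choose_spec
    have hinj : Set.InjOn g (U.filter fun u => f u = f u0 : Finset K) := by
      intro u hu u' hu' h
      have a1 := hg u hu
      have a2 := hg u' hu'
      rw [h] at a1
      rw [a1] at a2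
      exact mul_right_cancel₀ (inv_ne_zero hu00) a2
    rw [← Finset.card_image_of_injOn hinj]
    apply Nat.le_floor
    refine h1 (X ^ 2) hX2 _ ?_
    intro ε hε
    rw [mem_image] at hε
    obtain ⟨u, hu, rfl⟩ := hε
    rw [hg u hu]
    have hu1 := hU u (mem_filter.1 hu).1
    calc mulHeight₁ (u * u0⁻¹) ≤ mulHeight₁ u * mulHeight₁ u0⁻¹ := mulHeight₁_mul_le _ _
      _ ≤ X * X := by
          rw [mulHeight₁_inv]
          exact mul_le_mul hu1.2.1 hu0X (mulHeight₁_pos _).le (by linarith)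
      _ = X ^ 2 := by ring
  have hcard := Finset.card_le_mul_card_image (f := f) U _ hfib
  have himg : U.image f ⊆ Fintype.piFinset fun _ => Finset.Icc (-(M : ℤ)) M := by
    intro e he
    rw [mem_image] at he
    obtain ⟨u, hu, rfl⟩ := he
    rw [Fintype.mem_piFinset]
    intro v
    rw [mem_Icc]
    have a1 : (ev v.1 u).natAbs ≤ M :=
      (Finset.le_sup (f := fun v => (ev v u).natAbs) v.2).trans
        (Finset.le_sup (f := fun u => Q.sup fun v => (ev v u).natAbs) hu)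
    have : f u v = ev v.1 u := rfl
    rw [this]
    omega
  have hE : ((U.image f).card : ℝ) ≤ (X ^ 2) ^ (δ / 4) * (C2 * ∏ v ∈ Q, NN v ^ (δ / 4)) := by
    have hone : ∀ e ∈ U.image f, (1:ℝ) ≤ (X ^ 2) ^ (δ / 4) * ∏ v : Q, (NN v.1 ^ (-(δ / 4))) ^ (e v).natAbs := by
      intro e he
      rw [mem_image] at he
      obtain ⟨u, hu, rfl⟩ := he
      obtain ⟨hun, huX, -⟩ := hU u hu
      have a1 := prod_ev_le hun Q huX
      have a2 : ∏ v : Q, (NN v.1 ^ (-(δ / 4))) ^ (f u v).natAbs = ((∏ v ∈ Q, NN v ^ (ev v u).natAbs) ^ (δ / 4))⁻¹ := by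
        rw [← Finset.prod_coe_sort Q, ← Real.finset_prod_rpow _ _ (fun v _ => pow_nonneg (NN_pos v.1).le _),
          ← Finset.prod_inv_distrib]
        apply Finset.prod_congr rfl
        intro v _
        have : f u v = ev v.1 u := rfl
        rw [this, ← Real.rpow_natCast, ← Real.rpow_mul (NN_pos v.1).le, ← Real.rpow_natCast (NN v.1),
          ← Real.rpow_mul (NN_pos v.1).le, ← Real.rpow_neg (NN_pos v.1).le]
        congr 1
        ring
      rw [a2, ← div_eq_mul_inv, one_le_div (by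
        apply Real.rpow_pos_of_pos
        exact Finset.prod_pos fun v _ => pow_pos (NN_pos v) _)]
      exact Real.rpow_le_rpow (Finset.prod_nonneg fun v _ => pow_nonneg (NN_pos v).le _) a1 hδ4.le
    have hq : ∀ v : Q, 0 ≤ NN v.1 ^ (-(δ / 4)) ∧ NN v.1 ^ (-(δ / 4)) < 1 := fun v =>
      ⟨Real.rpow_nonneg (NN_pos v.1).le _,
        Real.rpow_lt_one_of_one_lt_of_neg (by linarith [two_le_NN v.1]) (by linarith)⟩
    have hXp : 0 ≤ (X ^ 2) ^ (δ / 4) := by positivity
    calc ((U.image f).card : ℝ) = ∑ e ∈ U.image f, (1:ℝ) := by simp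
      _ ≤ ∑ e ∈ U.image f, (X ^ 2) ^ (δ / 4) * ∏ v : Q, (NN v.1 ^ (-(δ / 4))) ^ (e v).natAbs :=
          Finset.sum_le_sum hone
      _ ≤ ∑ e ∈ Fintype.piFinset (fun _ : Q => Finset.Icc (-(M : ℤ)) M),
            (X ^ 2) ^ (δ / 4) * ∏ v : Q, (NN v.1 ^ (-(δ / 4))) ^ (e v).natAbs :=
          Finset.sum_le_sum_of_subset_of_nonneg himg fun e _ _ =>
            mul_nonneg hXp (Finset.prod_nonneg fun v _ => pow_nonneg (hq v).1 _)
      _ = (X ^ 2) ^ (δ / 4) * ∏ v : Q, ∑ k ∈ Finset.Icc (-(M : ℤ)) M, (NN v.1 ^ (-(δ / 4))) ^ k.natAbs := by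
          rw [← Finset.mul_sum, Finset.prod_univ_sum]
      _ ≤ (X ^ 2) ^ (δ / 4) * ∏ v : Q, (2 * (1 - NN v.1 ^ (-(δ / 4)))⁻¹) := by
          apply mul_le_mul_of_nonneg_left _ hXp
          apply Finset.prod_le_prod
          · intro v _
            exact Finset.sum_nonneg fun k _ => pow_nonneg (hq v).1 _
          · intro v _
            exact geom_bd (hq v).1 (hq v).2 M
      _ = (X ^ 2) ^ (δ / 4) * ∏ v ∈ Q, (2 * (1 - NN v ^ (-(δ / 4)))⁻¹) := by
          rw [← Finset.prod_coe_sort Q]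
      _ ≤ _ := mul_le_mul_of_nonneg_left (h2 Q) hXp
  have hXp : 0 ≤ (X ^ 2) ^ (δ / 4) := by positivity
  have hP1 : 1 ≤ ∏ v ∈ Q, NN v := Finset.one_le_prod fun v _ => by linarith [two_le_NN v]
  calc (U.card : ℝ) ≤ (⌊C1 * (X ^ 2) ^ (δ / 4)⌋₊ : ℝ) * (U.image f).card := by exact_mod_cast hcard
    _ ≤ (C1 * (X ^ 2) ^ (δ / 4)) * ((X ^ 2) ^ (δ / 4) * (C2 * ∏ v ∈ Q, NN v ^ (δ / 4))) :=
        mul_le_mul (Nat.floor_le (by positivity)) hE (Nat.cast_nonneg _) (by positivity)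
    _ = C1 * C2 * ((X ^ 2) ^ (δ / 4) * (X ^ 2) ^ (δ / 4)) * (∏ v ∈ Q, NN v) ^ (δ / 4) := by
        rw [Real.finset_prod_rpow _ _ (fun v _ => (NN_pos v).le)]; ring
    _ = C1 * C2 * X ^ δ * (∏ v ∈ Q, NN v) ^ (δ / 4) := by
        congr 2
        rw [← Real.rpow_add (by positivity), ← Real.rpow_natCast, ← Real.rpow_mul (by linarith)]
        congr 1
        push_cast; ring
    _ ≤ C1 * C2 * X ^ δ * (∏ v ∈ Q, NN v) ^ δ := by
        apply mul_le_mul_of_nonneg_left _ (by positivity)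
        exact Real.rpow_le_rpow_of_exponent_le hP1 (by linarith)

/-- finite sets of places of bounded norm -/
theorem sets_unif {ε : ℝ} (hε : 0 < ε) : ∃ F : ℝ, 0 ≤ F ∧ ∀ (K : Type) [Field K] [NumberField K],
    ∀ (Y : ℝ) (𝒬 : Finset (Finset (FinitePlace K))),
    (∀ Q ∈ 𝒬, ∑ v ∈ Q, Real.log (NN v) ≤ Y) →
      (𝒬.card : ℝ) ≤ Real.exp (Module.finrank ℚ K * F + (1 + ε) * Y) := by
  obtain ⟨F, hF, h⟩ := Pool.Agent.Y733.UD.ideals_card hε
  refine ⟨F, hF, fun K _ _ Y 𝒬 h𝒬 => ?_⟩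
  set g : Finset (FinitePlace K) → Pool.Agent.W223.AK.Idl K := fun Q =>
    Finsupp.indicator (Q.image fun v => v.maximalIdeal) (fun _ _ => 1) with hg
  have hval : ∀ Q w, g Q w = if w ∈ Q.image (fun v => v.maximalIdeal) then 1 else 0 := by
    intro Q w
    rw [hg]
    simp only [Finsupp.indicator_apply]
    split_ifs <;> rfl
  have hsupp : ∀ Q, (g Q).support = Q.image fun v => v.maximalIdeal := by
    intro Q
    ext w
    rw [Finsupp.mem_support_iff, hval]
    split_ifs with h1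
    · exact ⟨fun _ => h1, fun _ => one_ne_zero⟩
    · exact ⟨fun h2 => absurd rfl h2, fun h2 => absurd h2 h1⟩
  have hinj : Set.InjOn g (𝒬 : Set (Finset (FinitePlace K))) := by
    intro Q _ Q' _ hQQ
    have h1 : (Q.image fun v : FinitePlace K => v.maximalIdeal) =
        Q'.image fun v => v.maximalIdeal := by rw [← hsupp Q, ← hsupp Q', hQQ]
    exact Finset.image_injective FinitePlace.maximalIdeal_injective h1
  rw [← Finset.card_image_of_injOn hinj]
  refine h K Y _ ?_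
  intro t ht
  obtain ⟨Q, hQ, rfl⟩ := Finset.mem_image.1 ht
  refine le_trans (le_of_eq ?_) (h𝒬 Q hQ)
  unfold Pool.Agent.W223.AK.len
  rw [hsupp Q, Finset.sum_image (fun a _ b _ hab => FinitePlace.maximalIdeal_injective hab)]
  refine Finset.sum_congr rfl fun v hv => ?_
  rw [hval, if_pos (Finset.mem_image_of_mem _ hv)]
  rw [Nat.cast_one, one_mul]
  rfl

end Pool.Agent.R366.UC
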