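import Mathlib
import Pool.Agent.R366.UC.Supp

/-!
# Constants of a fixed arrangement over a number field, uniformly in all extensions

`k` is a fixed number field, `K` runs over all number fields containing it.
-/

set_option autoImplicit false

open NumberField Height Finset IsDedekindDomain
open scoped Classical

namespace Pool.Agent.R366.UC

open Pool.Agent.H57R3.VJ

section One

variable {K : Type} [Field K] [NumberField K]

/-- an algebraic integer has absolute value at most one at every finite place -/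
lemma fp_int_le (v : FinitePlace K) {y : K} (hy : IsIntegral ℤ y) : v y ≤ 1 := by
  have h1 := Pool.Agent.Y733.UD.fv_int_le v.maximalIdeal (⟨y, hy⟩ : 𝓞 K)
  have h2 : (Pool.Agent.H691R3.fv v.maximalIdeal) y = FinitePlace.mk v.maximalIdeal y := rfl
  have h3 : (Pool.Agent.H691R3.fv v.maximalIdeal) y ≤ 1 := h1
  rw [h2, FinitePlace.mk_maximalIdeal] at h3
  exact h3

lemma fp_intCast_le (v : FinitePlace K) (m : ℤ) : v (m : K) ≤ 1 := by
  refine fp_int_le v ?_
  have := isIntegral_algebraMap (R := ℤ) (A := K) (x := m)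
  simpa using this

/-- product formula for a nonzero integer -/
lemma finprod_int_inv {m : ℤ} (hm : m ≠ 0) :
    ∏ᶠ v : FinitePlace K, (v (m : K))⁻¹ = |(m : ℝ)| ^ Module.finrank ℚ K := by
  have hm0 : (m : K) ≠ 0 := Int.cast_ne_zero.2 hm
  rw [finprod_inv_distrib]
  have h1 := NumberField.prod_abs_eq_one hm0
  rw [(eq_inv_of_mul_eq_one_left h1).symm]
  have h2 : ∀ w : InfinitePlace K, w (m : K) = |(m : ℝ)| := by
    intro w
    rw [← InfinitePlace.norm_embedding_eq w (m : K), map_intCast]
    exact Complex.norm_intCast m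
  rw [Finset.prod_congr rfl fun w _ => by rw [h2 w], Finset.prod_pow_eq_pow_sum,
    InfinitePlace.sum_mult_eq]

lemma int_fin {m : ℤ} (hm : m ≠ 0) : (fun v : FinitePlace K => (v (m : K))⁻¹).HasFiniteMulSupport :=
  (FinitePlace.hasFiniteMulSupport (Int.cast_ne_zero.2 hm)).inv

/-- the places at which a fixed nonzero integer is not a unit -/
lemma bad_places {m : ℤ} (hm : m ≠ 0) : ∃ S0 : Finset (FinitePlace K),
    (∀ v, v ∉ S0 → v (m : K) = 1) ∧
      ∑ v ∈ S0, Real.log (NN v) ≤ Module.finrank ℚ K * Real.log |(m : ℝ)| := by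
  have hm0 : (m : K) ≠ 0 := Int.cast_ne_zero.2 hm
  have hfin := FinitePlace.hasFiniteMulSupport hm0
  refine ⟨hfin.toFinset, fun v hv => ?_, ?_⟩
  · by_contra h
    apply hv
    rw [Set.Finite.mem_toFinset]
    exact h
  · have h1 : ∏ v ∈ hfin.toFinset, NN v ≤ |(m : ℝ)| ^ Module.finrank ℚ K := by
      rw [← finprod_int_inv (K := K) hm]
      refine le_trans ?_ (prod_le_fp (fun v : FinitePlace K => (v (m : K))⁻¹) (fun v => ?_)
        (int_fin hm) hfin.toFinset)
      · refine Finset.prod_le_prod (fun v _ => (NN_pos v).le) fun v hv => ?_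
        have h2 : v (m : K) ≠ 1 := by
          rw [Set.Finite.mem_toFinset] at hv
          exact hv
        have h3 : v (m : K) < v (1 : K) := by
          rw [map_one]
          exact lt_of_le_of_ne (fp_intCast_le v m) h2
        have h4 := gain v hm0 one_ne_zero h3
        rw [map_one] at h4
        have h5 : 0 < v (m : K) := FinitePlace.pos_iff.2 hm0
        rw [← one_div, le_div_iff₀ h5]
        exact h4
      · have h5 : 0 < v (m : K) := FinitePlace.pos_iff.2 hm0
        exact (one_le_inv₀ h5).2 (fp_intCast_le v m)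
    have h2 : ∑ v ∈ hfin.toFinset, Real.log (NN v) = Real.log (∏ v ∈ hfin.toFinset, NN v) := by
      rw [Real.log_prod (fun v _ => (NN_pos v).ne')]
    rw [h2, ← Real.log_pow]
    exact Real.log_le_log (Finset.prod_pos fun v _ => NN_pos v) h1

end One

section Fixed

variable {k : Type} [Field k] [NumberField k]

/-- common denominator of finitely many elements -/
lemma clear (s : Finset k) : ∃ m : ℤ, m ≠ 0 ∧ ∀ x ∈ s, IsIntegral ℤ ((m : k) * x) := by
  obtain ⟨m, hm, h⟩ := exists_integral_multiples ℤ ℚ (L := k) s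
  refine ⟨m, hm, fun x hx => ?_⟩
  have := h x hx
  rwa [zsmul_eq_mul] at this

variable {K : Type} [Field K] [NumberField K] [Algebra k K]

lemma fp_le_inv {m : ℤ} (hm : m ≠ 0) {x : k} (hx : IsIntegral ℤ ((m : k) * x)) (v : FinitePlace K) :
    v (algebraMap k K x) ≤ (v (m : K))⁻¹ := by
  have h1 : IsIntegral ℤ (algebraMap k K ((m : k) * x)) := hx.map (algebraMap k K).toIntAlgHom
  rw [map_mul, map_intCast] at h1
  have h2 := fp_int_le v h1
  rw [map_mul] at h2
  have h5 : 0 < v (m : K) := FinitePlace.pos_iff.2 (Int.cast_ne_zero.2 hm)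
  rw [← one_div, le_div_iff₀ h5, mul_comm]
  exact h2

lemma arch_le {x : k} {A : ℝ} (hA : ∀ σ : k →+* ℂ, ‖σ x‖ ≤ A) (w : InfinitePlace K) :
    w (algebraMap k K x) ≤ A := by
  rw [← InfinitePlace.norm_embedding_eq w]
  exact hA (w.embedding.comp (algebraMap k K))

end Fixed

/-- heights of fixed vectors in extensions -/
theorem height_unif {k : Type} [Field k] [NumberField k] {ι : Type} [Finite ι] (b : ι → k)
    (hb : b ≠ 0) : ∃ A : ℝ, 0 ≤ A ∧ ∀ (K : Type) [Field K] [NumberField K] [Algebra k K],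
      mulHeight (fun i => algebraMap k K (b i)) ≤ Real.exp (Module.finrank ℚ K * A) := by
  haveI := Fintype.ofFinite ι
  obtain ⟨m, hm, hint⟩ := clear (Finset.univ.image b)
  set A0 : ℝ := 1 + ∑ i, ∑ σ : k →+* ℂ, ‖σ (b i)‖ with hA0
  have hnn : 0 ≤ ∑ i, ∑ σ : k →+* ℂ, ‖σ (b i)‖ :=
    Finset.sum_nonneg fun i _ => Finset.sum_nonneg fun σ _ => norm_nonneg _
  have hA1 : 1 ≤ A0 := by linarith
  have hle : ∀ i, ∀ σ : k →+* ℂ, ‖σ (b i)‖ ≤ A0 := by
    intro i σ
    have h1 : ‖σ (b i)‖ ≤ ∑ σ : k →+* ℂ, ‖σ (b i)‖ :=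
      Finset.single_le_sum (f := fun σ : k →+* ℂ => ‖σ (b i)‖) (fun σ _ => norm_nonneg _)
        (Finset.mem_univ σ)
    have h2 : ∑ σ : k →+* ℂ, ‖σ (b i)‖ ≤ ∑ i, ∑ σ : k →+* ℂ, ‖σ (b i)‖ :=
      Finset.single_le_sum (f := fun i => ∑ σ : k →+* ℂ, ‖σ (b i)‖)
        (fun i _ => Finset.sum_nonneg fun σ _ => norm_nonneg _) (Finset.mem_univ i)
    linarith
  have hm1 : 1 ≤ |(m : ℝ)| := by
    have : (1 : ℤ) ≤ |m| := Int.one_le_abs hm
    have h : ((1 : ℤ) : ℝ) ≤ ((|m| : ℤ) : ℝ) := Int.cast_le.mpr this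
    rw [Int.cast_abs] at h
    simpa using h
  refine ⟨Real.log A0 + Real.log |(m : ℝ)|, add_nonneg (Real.log_nonneg hA1) (Real.log_nonneg hm1),
    ?_⟩
  intro K _ _ _
  have hbK : (fun i => algebraMap k K (b i)) ≠ 0 := by
    intro h
    apply hb
    ext i
    have := congrFun h i
    simpa using this
  haveI : Nonempty ι := by
    by_contra hne
    rw [not_nonempty_iff] at hne
    exact hb (Subsingleton.elim _ _)
  rw [NumberField.mulHeight_eq hbK]
  have h1 : ∏ w : InfinitePlace K, (⨆ i, w (algebraMap k K (b i))) ^ w.mult ≤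
      A0 ^ Module.finrank ℚ K := by
    rw [← InfinitePlace.sum_mult_eq, ← Finset.prod_pow_eq_pow_sum]
    refine Finset.prod_le_prod (fun w _ => pow_nonneg (Real.iSup_nonneg fun i => apply_nonneg _ _) _)
      fun w _ => ?_
    exact pow_le_pow_left₀ (Real.iSup_nonneg fun i => apply_nonneg _ _)
      (ciSup_le fun i => arch_le (hle i) w) _
  have hvb : ∀ v : FinitePlace K, (⨆ i, v (algebraMap k K (b i))) ≤ (v (m : K))⁻¹ := fun v =>
    ciSup_le fun i => fp_le_inv hm (hint _ (Finset.mem_image_of_mem _ (Finset.mem_univ i))) v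
  have hfin1 : (fun v : FinitePlace K => ⨆ i, v (algebraMap k K (b i))).HasFiniteMulSupport := by
    have hU : (⋃ i ∈ {i : ι | algebraMap k K (b i) ≠ 0},
        Function.mulSupport fun v : FinitePlace K => v (algebraMap k K (b i))).Finite := by
      apply Set.Finite.biUnion (Set.toFinite _)
      intro j hj
      exact FinitePlace.hasFiniteMulSupport hj
    refine hU.subset ?_
    intro v hv
    rw [Function.mem_mulSupport] at hv
    by_contra hne
    apply hv
    simp only [Set.mem_iUnion, not_exists, Function.mem_mulSupport, not_not] at hne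
    obtain ⟨j, hj⟩ := exists_eq_ciSup_of_finite (f := fun j => v (algebraMap k K (b j)))
    rw [← hj]
    refine hne j ?_
    intro h0
    obtain ⟨l, hl⟩ := Function.ne_iff.1 hbK
    have h2 : v (algebraMap k K (b l)) ≤ ⨆ i, v (algebraMap k K (b i)) := Finite.le_ciSup_of_le l le_rfl
    have h3 : 0 < v (algebraMap k K (b l)) := FinitePlace.pos_iff.2 hl
    rw [← hj, h0, map_zero] at h2
    linarith
  have h2 : ∏ᶠ v : FinitePlace K, ⨆ i, v (algebraMap k K (b i)) ≤ |(m : ℝ)| ^ Module.finrank ℚ K := by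
    rw [← finprod_int_inv (K := K) hm]
    have hfin2 := int_fin (K := K) hm
    set F := (Set.Finite.union hfin1 hfin2).toFinset with hF
    rw [finprod_eq_prod_of_mulSupport_subset (s := F) _ (by
        rw [hF, Set.Finite.coe_toFinset]; exact Set.subset_union_left),
      finprod_eq_prod_of_mulSupport_subset (s := F) _ (by
        rw [hF, Set.Finite.coe_toFinset]; exact Set.subset_union_right)]
    exact Finset.prod_le_prod (fun v _ => Real.iSup_nonneg fun i => apply_nonneg _ _) fun v _ => hvb v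
  have h3 : Real.exp (Module.finrank ℚ K * (Real.log A0 + Real.log |(m : ℝ)|)) =
      A0 ^ Module.finrank ℚ K * |(m : ℝ)| ^ Module.finrank ℚ K := by
    rw [mul_add, Real.exp_add, Real.exp_nat_mul, Real.exp_nat_mul, Real.exp_log (by linarith),
      Real.exp_log (by linarith)]
  rw [h3]
  exact mul_le_mul h1 h2 (finprod_nonneg fun v => Real.iSup_nonneg fun i => apply_nonneg _ _)
    (by positivity)

/-- the coefficients in an extension -/
def up {k : Type} [Field k] (K : Type) [Field K] [Algebra k K] {n r : ℕ}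
    (a : Fin r → Fin (n + 1) → k) : Fin r → Fin (n + 1) → K :=
  fun i j => algebraMap k K (a i j)

lemma up_ne_zero {k : Type} [Field k] {K : Type} [Field K] [Algebra k K] {n r : ℕ}
    {a : Fin r → Fin (n + 1) → k} {i : Fin r} (h : a i ≠ 0) : up K a i ≠ 0 := by
  intro h0
  apply h
  ext j
  have := congrFun h0 j
  simpa [up] using this

/-- ratio of two forms -/
theorem ratio_unif {k : Type} [Field k] [NumberField k] {n r : ℕ} {a : Fin r → Fin (n + 1) → k}
    (ha0 : ∀ i, a i ≠ 0) : ∃ A : ℝ, 0 ≤ A ∧ ∀ (K : Type) [Field K] [NumberField K] [Algebra k K],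
      ∀ i i0 : Fin r, ∀ x : Fin (n + 1) → K,
        mulHeight₁ (lin (up K a i) x / lin (up K a i0) x) ≤
          Real.exp (Module.finrank ℚ K * A) * mulHeight x := by
  have h : ∀ i i0 : Fin r, ∃ A : ℝ, 0 ≤ A ∧ ∀ (K : Type) [Field K] [NumberField K] [Algebra k K],
      mulHeight (fun p : Fin 2 × Fin (n + 1) => algebraMap k K ((![a i, a i0] p.1) p.2)) ≤
        Real.exp (Module.finrank ℚ K * A) := by
    intro i i0
    refine height_unif (fun p : Fin 2 × Fin (n + 1) => (![a i, a i0] p.1) p.2) ?_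
    intro h0
    apply ha0 i
    ext j
    have := congrFun h0 (0, j)
    simpa using this
  choose A hA0 hA using h
  refine ⟨Real.log ((n + 1 : ℕ) : ℝ) + ∑ i, ∑ i0, A i i0, ?_, ?_⟩
  · have h1 : 0 ≤ Real.log ((n + 1 : ℕ) : ℝ) := Real.log_nonneg (by push_cast; linarith [(Nat.cast_nonneg n : (0:ℝ) ≤ n)])
    have h2 : 0 ≤ ∑ i, ∑ i0, A i i0 := Finset.sum_nonneg fun i _ => Finset.sum_nonneg fun i0 _ => hA0 i i0
    linarith
  · intro K _ _ _ i i0 x
    have h1 := mulHeight_linearMap_apply_le
      (fun p : Fin 2 × Fin (n + 1) => algebraMap k K ((![a i, a i0] p.1) p.2)) x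
    rw [mulHeight₁_div_eq_mulHeight]
    refine le_trans (le_of_eq ?_) (h1.trans ?_)
    · congr 1
      ext j
      fin_cases j <;> simp [lin, up]
    · rw [NumberField.totalWeight_eq_finrank, Nat.card_eq_fintype_card, Fintype.card_fin]
      have hle : A i i0 ≤ ∑ i, ∑ i0, A i i0 := by
        have e1 : A i i0 ≤ ∑ i0, A i i0 :=
          single_le_sum (f := fun i0 => A i i0) (fun j _ => hA0 i j) (mem_univ i0)
        have e2 : ∑ i0, A i i0 ≤ ∑ i, ∑ i0, A i i0 :=
          single_le_sum (f := fun i => ∑ i0, A i i0) (fun j _ => sum_nonneg fun i0 _ => hA0 j i0)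
            (mem_univ i)
        linarith
      apply mul_le_mul_of_nonneg_right _ (by positivity)
      rw [mul_add, Real.exp_add, Real.exp_nat_mul, Real.exp_log (by positivity)]
      apply mul_le_mul_of_nonneg_left _ (by positivity)
      refine (hA i i0 K).trans (Real.exp_le_exp.2 ?_)
      exact mul_le_mul_of_nonneg_left hle (Nat.cast_nonneg _)

/-- the bad places -/
theorem bad_unif {k : Type} [Field k] [NumberField k] {n r : ℕ} {a : Fin r → Fin (n + 1) → k}
    (ha : GenPos a) (ha0 : ∀ i, a i ≠ 0) : ∃ A : ℝ, 0 ≤ A ∧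
      ∀ (K : Type) [Field K] [NumberField K] [Algebra k K], ∃ S0 : Finset (FinitePlace K),
        ∑ v ∈ S0, Real.log (NN v) ≤ Module.finrank ℚ K * A ∧
        (∀ v ∉ S0, ∀ i, sv v (up K a i) = 1) ∧
        ∀ v ∉ S0, ∀ x : Fin (n + 1) → K, x ≠ 0 →
          (univ.filter fun i => Meets (up K a i) x v).card ≤ n := by
  have h2 : ∀ I : {I : Finset (Fin r) // I.card = n + 1}, ∃ c : Fin (n + 1) → I.1 → k,
      ∀ x : Fin (n + 1) → k, ∀ j, x j = ∑ i : I.1, c j i * lin (a i) x := fun I =>
    inv_coeff I.2 (ha I.1 I.2)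
  choose c hc using h2
  -- the identities as vector identities
  have hid : ∀ I : {I : Finset (Fin r) // I.card = n + 1}, ∀ j l : Fin (n + 1),
      (if l = j then (1 : k) else 0) = ∑ i : I.1, c I j i * a i l := by
    intro I j l
    have := hc I (Pi.single l 1) j
    rw [Pi.single_apply] at this
    have e : ∀ i : I.1, lin (a i) (Pi.single l (1 : k)) = a i l := by
      intro i
      unfold lin
      simp [Pi.single_apply]
    simp only [e] at this
    rw [← this]
    by_cases h : l = j
    · rw [if_pos h, if_pos h.symm]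
    · rw [if_neg h, if_neg (fun h' => h h'.symm)]
  have hne : ∀ i, ∃ j, a i j ≠ 0 := fun i => Function.ne_iff.1 (ha0 i)
  choose j0 hj0 using hne
  obtain ⟨m, hm, hint⟩ := clear
    ((Finset.univ.image fun p : Fin r × Fin (n + 1) => a p.1 p.2) ∪
      (Finset.univ.image fun i : Fin r => (a i (j0 i))⁻¹) ∪
      (Finset.univ.biUnion fun I : {I : Finset (Fin r) // I.card = n + 1} =>
        Finset.univ.image fun p : Fin (n + 1) × I.1 => c I p.1 p.2))
  have hm1 : 1 ≤ |(m : ℝ)| := by
    have : (1 : ℤ) ≤ |m| := Int.one_le_abs hm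
    have h : ((1 : ℤ) : ℝ) ≤ ((|m| : ℤ) : ℝ) := Int.cast_le.mpr this
    rw [Int.cast_abs] at h
    simpa using h
  refine ⟨Real.log |(m : ℝ)|, Real.log_nonneg hm1, ?_⟩
  intro K _ _ _
  obtain ⟨S0, hS1, hS2⟩ := bad_places (K := K) hm
  have hle : ∀ x : k, IsIntegral ℤ ((m : k) * x) → ∀ v ∉ S0, v (algebraMap k K x) ≤ 1 := by
    intro x hx v hv
    have := fp_le_inv (K := K) hm hx v
    rwa [hS1 v hv, inv_one] at this
  have hs1 : ∀ v ∉ S0, ∀ i, sv v (up K a i) = 1 := by
    intro v hv i
    apply le_antisymm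
    · obtain ⟨j, hj⟩ := sv_att v (up K a i)
      rw [hj]
      refine hle _ (hint _ ?_) v hv
      exact Finset.mem_union_left _ (Finset.mem_union_left _
        (Finset.mem_image.2 ⟨(i, j), Finset.mem_univ _, rfl⟩))
    · have h1 : v (algebraMap k K (a i (j0 i))⁻¹) ≤ 1 := by
        refine hle _ (hint _ ?_) v hv
        exact Finset.mem_union_left _ (Finset.mem_union_right _
          (Finset.mem_image.2 ⟨i, Finset.mem_univ _, rfl⟩))
      rw [map_inv₀, map_inv₀] at h1
      have h2 : 0 < v (algebraMap k K (a i (j0 i))) := by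
        apply FinitePlace.pos_iff.2
        simpa using hj0 i
      have h3 : 1 ≤ v (algebraMap k K (a i (j0 i))) := by
        by_contra hlt
        push Not at hlt
        have := one_lt_inv₀ h2 |>.2 hlt
        linarith
      exact h3.trans (le_sv v (up K a i) (j0 i))
  refine ⟨S0, hS2, hs1, ?_⟩
  intro v hv x hx
  by_contra hcard
  push Not at hcard
  obtain ⟨I, hIs, hI⟩ := Finset.exists_subset_card_eq (Nat.succ_le_of_lt hcard)
  have hc1 : ∀ j (i : I), v (algebraMap k K (c ⟨I, hI⟩ j i)) ≤ 1 := by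
    intro j i
    refine hle _ (hint _ ?_) v hv
    refine Finset.mem_union_right _ (Finset.mem_biUnion.2 ⟨⟨I, hI⟩, Finset.mem_univ _, ?_⟩)
    exact Finset.mem_image.2 ⟨(j, i), Finset.mem_univ _, rfl⟩
  obtain ⟨j, hj⟩ := sv_att v x
  have hxj : x j = ∑ i : I, algebraMap k K (c ⟨I, hI⟩ j i) * lin (up K a i) x := by
    have h1 : ∀ l : Fin (n + 1), (if l = j then (1 : K) else 0) =
        ∑ i : I, algebraMap k K (c ⟨I, hI⟩ j i) * algebraMap k K (a i l) := by
      intro l
      have := congrArg (algebraMap k K) (hid ⟨I, hI⟩ j l)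
      rw [map_sum] at this
      simp only [map_mul] at this
      rw [← this]
      split_ifs <;> simp
    calc x j = ∑ l, (if l = j then (1 : K) else 0) * x l := by simp
      _ = ∑ l, (∑ i : I, algebraMap k K (c ⟨I, hI⟩ j i) * algebraMap k K (a i l)) * x l := by
          refine Finset.sum_congr rfl fun l _ => ?_
          rw [h1 l]
      _ = _ := by
          unfold lin up
          simp only [Finset.sum_mul, Finset.mul_sum]
          rw [Finset.sum_comm]
          simp only [mul_assoc]
  have hlt : v (x j) < sv v x := by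
    rw [hxj]
    apply sum_lt_v v _ _ (sv_pos v hx)
    intro i _
    rw [map_mul]
    have hmt : Meets (up K a i) x v := by
      have := hIs i.2
      simpa using this
    unfold Meets at hmt
    rw [hs1 v hv, one_mul] at hmt
    calc v (algebraMap k K (c ⟨I, hI⟩ j i)) * v (lin (up K a i) x) ≤ 1 * v (lin (up K a i) x) :=
          mul_le_mul_of_nonneg_right (hc1 j i) (apply_nonneg _ _)
      _ = v (lin (up K a i) x) := one_mul _
      _ < _ := hmt
  exact absurd hj (ne_of_gt hlt)

end Pool.Agent.R366.UC
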