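import Mathlib
import Pool.Agent.R366.UC.Coef

/-!
# Points with a small truncated counting function, uniformly in all extensions
-/

set_option autoImplicit false

open NumberField Height Finset IsDedekindDomain LinearAlgebra.Projectivization
open scoped Classical

namespace Pool.Agent.R366.UC

open Pool.Agent.H57R3.VJ

variable {k : Type} [Field k] [NumberField k] {n r : ℕ}

/-- the inverse matrices in an extension -/
lemma inv_up {a : Fin r → Fin (n + 1) → k} {I : Finset (Fin r)} (hI : I.card = n + 1)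
    (hl : LinearIndependent k (fun i : I => a i)) (K : Type) [Field K] [Algebra k K] :
    ∃ c : Fin (n + 1) → I → K, ∀ x : Fin (n + 1) → K, ∀ j,
      x j = ∑ i : I, c j i * lin (up K a i) x := by
  obtain ⟨c, hc⟩ := inv_coeff hI hl
  refine ⟨fun j i => algebraMap k K (c j i), fun x j => ?_⟩
  have hid : ∀ l : Fin (n + 1), (if l = j then (1 : k) else 0) = ∑ i : I, c j i * a i l := by
    intro l
    have := hc (Pi.single l 1) j
    rw [Pi.single_apply] at this
    have e : ∀ i : I, lin (a i) (Pi.single l (1 : k)) = a i l := by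
      intro i
      unfold lin
      simp [Pi.single_apply]
    simp only [e] at this
    rw [← this]
    by_cases h : l = j
    · rw [if_pos h, if_pos h.symm]
    · rw [if_neg h, if_neg (fun h' => h h'.symm)]
  have h1 : ∀ l : Fin (n + 1), (if l = j then (1 : K) else 0) =
      ∑ i : I, algebraMap k K (c j i) * algebraMap k K (a i l) := by
    intro l
    have := congrArg (algebraMap k K) (hid l)
    rw [map_sum] at this
    simp only [map_mul] at this
    rw [← this]
    split_ifs <;> simp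
  calc x j = ∑ l, (if l = j then (1 : K) else 0) * x l := by simp
    _ = ∑ l, (∑ i : I, algebraMap k K (c j i) * algebraMap k K (a i l)) * x l := by
        refine Finset.sum_congr rfl fun l _ => ?_
        rw [h1 l]
    _ = _ := by
        unfold lin up
        simp only [Finset.sum_mul, Finset.mul_sum]
        rw [Finset.sum_comm]
        simp only [mul_assoc]

theorem fiber_unif (a : Fin r → Fin (n + 1) → k) (ha : GenPos a) (ha0 : ∀ i, a i ≠ 0) {δ : ℝ}
    (hδ : 0 < δ) (hδ1 : δ ≤ 1) :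
    ∃ A : ℝ, 0 ≤ A ∧ ∀ (K : Type) [Field K] [NumberField K] [Algebra k K], ∀ B : ℝ, 1 ≤ B →
      ∀ I : Finset (Fin r), I.card = n + 1 → ∀ Q : Finset (FinitePlace K),
      ∀ PP : Finset (ℙ K (Fin (n + 1) → K)), (∀ P ∈ PP, (∀ i, lin (up K a i) P.rep ≠ 0) ∧
        mulHeight P.rep ≤ B ∧ ∀ v ∉ Q, ∀ i ∈ I, v (lin (up K a i) P.rep) = sv v P.rep) →
      (PP.card : ℝ) ≤
        (Real.exp (Module.finrank ℚ K * A) * B ^ δ * (∏ v ∈ Q, NN v) ^ δ) ^ (n + 1) := by
  obtain ⟨A1, hA1, h1'⟩ := supp_unif hδ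
  obtain ⟨A2, hA2, h2'⟩ := ratio_unif ha0
  refine ⟨A1 + A2, by positivity, ?_⟩
  intro K _ _ _ B hB I hI Q PP hPP
  have h1 := h1' K
  have hD := h2' K
  set dd : ℝ := (Module.finrank ℚ K : ℝ) with hdd
  have hdd0 : 0 ≤ dd := Nat.cast_nonneg _
  set D : ℝ := Real.exp (dd * A2) with hDdef
  have hD1 : 1 ≤ D := Real.one_le_exp (by positivity)
  set C1 : ℝ := Real.exp (dd * A1) with hC1d
  have hC1 : 0 < C1 := Real.exp_pos _
  have hIne : I.Nonempty := by
    rw [← card_pos, hI]; omega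
  obtain ⟨i0, hi0⟩ := hIne
  obtain ⟨c, hc⟩ := inv_up hI (ha I hI) K
  have hU : ∀ i : I, ((PP.image fun P => lin (up K a i) P.rep / lin (up K a i0) P.rep).card : ℝ) ≤
      Real.exp (dd * (A1 + A2)) * B ^ δ * (∏ v ∈ Q, NN v) ^ δ := by
    intro i
    have := h1 (D * B) (by nlinarith) Q
      (PP.image fun P => lin (up K a i) P.rep / lin (up K a i0) P.rep) (by
      intro u hu
      obtain ⟨P, hP, rfl⟩ := mem_image.1 hu
      obtain ⟨g1, g2, g3⟩ := hPP P hP
      refine ⟨div_ne_zero (g1 _) (g1 _), ?_, ?_⟩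
      · refine (hD i i0 P.rep).trans ?_
        exact mul_le_mul_of_nonneg_left g2 (by linarith)
      · intro v hv
        rw [map_div₀, g3 v hv i i.2, g3 v hv i0 hi0]
        exact div_self (sv_pos v P.rep_nonzero).ne')
    refine this.trans ?_
    have hP0 : 0 ≤ ∏ v ∈ Q, NN v := prod_nonneg fun v _ => (NN_pos v).le
    apply mul_le_mul_of_nonneg_right _ (Real.rpow_nonneg hP0 _)
    rw [Real.mul_rpow (by linarith) (by linarith), ← mul_assoc]
    apply mul_le_mul_of_nonneg_right _ (by positivity)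
    rw [mul_add, Real.exp_add]
    apply mul_le_mul_of_nonneg_left _ hC1.le
    calc D ^ δ ≤ D ^ (1 : ℝ) := Real.rpow_le_rpow_of_exponent_le hD1 hδ1
      _ = D := Real.rpow_one D
  have hcard : PP.card ≤ (Fintype.piFinset fun i : I => PP.image fun P =>
      lin (up K a i) P.rep / lin (up K a i0) P.rep).card := by
    apply Finset.card_le_card_of_injOn
      (fun P => fun i : I => lin (up K a i) P.rep / lin (up K a i0) P.rep)
    · intro P hP
      rw [mem_coe, Fintype.mem_piFinset]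
      intro i
      exact mem_image_of_mem _ hP
    · intro P hP P' hP' hEq
      obtain ⟨g1, _, _⟩ := hPP P hP
      obtain ⟨g1', _, _⟩ := hPP P' hP'
      have hx : P.rep = (lin (up K a i0) P.rep / lin (up K a i0) P'.rep) • P'.rep := by
        ext j
        rw [Pi.smul_apply, smul_eq_mul, hc P.rep j, hc P'.rep j, mul_sum]
        apply sum_congr rfl
        intro i _
        have h2 : lin (up K a i) P.rep / lin (up K a i0) P.rep =
            lin (up K a i) P'.rep / lin (up K a i0) P'.rep := congrFun hEq i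
        have e1 := g1 i0
        have e2 := g1' i0
        rw [div_eq_div_iff e1 e2] at h2
        field_simp
        rw [mul_assoc, h2]
        ring
      rw [← P.mk_rep, ← P'.mk_rep, Projectivization.mk_eq_mk_iff']
      exact ⟨_, hx.symm⟩
  have hprod : ((Fintype.piFinset fun i : I => PP.image fun P =>
      lin (up K a i) P.rep / lin (up K a i0) P.rep).card : ℝ) ≤
      (Real.exp (dd * (A1 + A2)) * B ^ δ * (∏ v ∈ Q, NN v) ^ δ) ^ (n + 1) := by
    rw [Fintype.card_piFinset, Nat.cast_prod]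
    calc ∏ i : I, ((PP.image fun P => lin (up K a i) P.rep / lin (up K a i0) P.rep).card : ℝ) ≤
        ∏ i : I, (Real.exp (dd * (A1 + A2)) * B ^ δ * (∏ v ∈ Q, NN v) ^ δ) := by
          apply Finset.prod_le_prod
          · intro i _; exact Nat.cast_nonneg _
          · intro i _; exact hU i
      _ = _ := by rw [Finset.prod_const, card_univ, Fintype.card_coe, hI]
  exact le_trans (by exact_mod_cast hcard) hprod

/-- **the uniform count** -/
theorem count_unif {a : Fin r → Fin (n + 1) → k} (ha : GenPos a) (hr : n + 1 ≤ r)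
    (θ c : ℝ) (hθ : 0 ≤ θ) (hc0 : 0 ≤ c) {α β : ℝ} (hα : 0 ≤ α) (hβ : 0 ≤ β)
    (hg : ∀ t : ℕ, 1 ≤ t → t ≤ n → (r.choose (n + 1) : ℝ) - ((r - t).choose (n + 1) : ℝ) ≤ α + β * t)
    {δ : ℝ} (hδ : 0 < δ) :
    ∃ A : ℝ, 0 ≤ A ∧ ∀ (K : Type) [Field K] [NumberField K] [Algebra k K], ∀ X : ℝ, 0 ≤ X →
      ∀ PP : Finset (ℙ K (Fin (n + 1) → K)),
      (∀ P ∈ PP, (∀ i, lin (up K a i) P.rep ≠ 0) ∧
        Real.log (mulHeight P.rep) ≤ Module.finrank ℚ K * X ∧
        N1 ∅ (up K a) P.rep ≤ θ * Real.log (mulHeight P.rep) + Module.finrank ℚ K * c) →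
      (PP.card : ℝ) ≤ Real.exp (Module.finrank ℚ K *
        (A + ((α * θ + β * r) / (r.choose (n + 1) : ℝ) + δ) * X)) := by
  have ha0 := fun i => ha.ne_zero hr i
  have hchpos : (0 : ℝ) < (r.choose (n + 1) : ℝ) := by exact_mod_cast Nat.choose_pos hr
  have hch1 : (1 : ℝ) ≤ (r.choose (n + 1) : ℝ) := by exact_mod_cast Nat.choose_pos hr
  set ch : ℝ := (r.choose (n + 1) : ℝ) with hch
  set κ : ℝ := (α * θ + β * r) / ch with hκ
  have hκ0 : 0 ≤ κ := by positivity
  have hn1 : (1 : ℝ) ≤ ((n + 1 : ℕ) : ℝ) := by push_cast; linarith [(Nat.cast_nonneg n : (0:ℝ) ≤ n)]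
  have hn0 : (0 : ℝ) < ((n + 1 : ℕ) : ℝ) := by positivity
  -- constants
  set ε : ℝ := δ / (2 * (1 + κ)) with hε
  have hε0 : 0 < ε := by positivity
  set δ' : ℝ := min 1 (δ / (2 * ((n + 1 : ℕ) : ℝ) * (1 + κ))) with hδ'
  have hδ'0 : 0 < δ' := lt_min one_pos (by positivity)
  have hδ'1 : δ' ≤ 1 := min_le_left _ _
  obtain ⟨A0, hA0, hbad⟩ := bad_unif ha ha0
  obtain ⟨A1, hA1, hfib'⟩ := fiber_unif a ha ha0 hδ'0 hδ'1
  obtain ⟨A2, hA2, hsets⟩ := sets_unif hε0
  have hh : ∀ i : Fin r, ∃ A : ℝ, 0 ≤ A ∧ ∀ (K : Type) [Field K] [NumberField K] [Algebra k K],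
      mulHeight (up K a i) ≤ Real.exp (Module.finrank ℚ K * A) := fun i => height_unif (a i) (ha0 i)
  choose A3 hA30 hA3 using hh
  set A3s : ℝ := ∑ i, A3 i with hA3s
  have hA3s0 : 0 ≤ A3s := Finset.sum_nonneg fun i _ => hA30 i
  have hA3le : ∀ i, A3 i ≤ A3s := fun i =>
    Finset.single_le_sum (f := A3) (fun j _ => hA30 j) (Finset.mem_univ i)
  set c1 : ℝ := Real.log ((n + 1 : ℕ) : ℝ) + A3s with hc1
  have hlogn : 0 ≤ Real.log ((n + 1 : ℕ) : ℝ) := Real.log_nonneg hn1
  have hc10 : 0 ≤ c1 := by positivity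
  set c2 : ℝ := (α * c + β * (r * c1)) / ch with hc2
  have hc20 : 0 ≤ c2 := by positivity
  refine ⟨Real.log ch + A2 + (1 + ε) * c2 + ((n + 1 : ℕ) : ℝ) * (A1 + δ' * c2 + δ' * A0), ?_, ?_⟩
  · have : 0 ≤ Real.log ch := Real.log_nonneg hch1
    positivity
  intro K _ _ _ X hX PP hPP
  obtain ⟨S0, hS0W, hs1, hs2⟩ := hbad K
  set dd : ℝ := (Module.finrank ℚ K : ℝ) with hdd
  have hdd1 : 1 ≤ dd := Pool.Agent.Y733.UD.finrank_one_le K
  have hdd0 : 0 < dd := by linarith
  set Y : ℝ := dd * (κ * X + c2) with hY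
  have hY0 : 0 ≤ Y := by positivity
  have hcK : ∀ i, Real.log (((n + 1 : ℕ) : ℝ) ^ (Module.finrank ℚ K) * mulHeight (up K a i)) ≤
      dd * c1 := by
    intro i
    have hm0 : 0 < mulHeight (up K a i) := by positivity
    rw [Real.log_mul (by positivity) hm0.ne', Real.log_pow, hc1, mul_add]
    refine add_le_add le_rfl ?_
    have h1 := Real.log_le_log hm0 (hA3 i K)
    rw [Real.log_exp] at h1
    exact h1.trans (mul_le_mul_of_nonneg_left (hA3le i) hdd0.le)
  have hchoice : ∀ P : ℙ K (Fin (n + 1) → K), ∃ IQ : Finset (Fin r) × Finset (FinitePlace K),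
      P ∈ PP → IQ.1.card = n + 1 ∧ Disjoint IQ.2 S0 ∧
      (∀ v ∉ IQ.2 ∪ S0, ∀ i ∈ IQ.1, v (lin (up K a i) P.rep) = sv v P.rep) ∧
      ∑ v ∈ IQ.2, Real.log (NN v) ≤ Y := by
    intro P
    by_cases hP : P ∈ PP
    · obtain ⟨g1, g2, g3⟩ := hPP P hP
      have hA : N1 ∅ (up K a) P.rep ≤ θ * (dd * X) + dd * c :=
        g3.trans (add_le_add (mul_le_mul_of_nonneg_left g2 hθ) le_rfl)
      obtain ⟨IQ, k1, k2, k3, k4⟩ := point_choice (a := up K a) hr (fun i => up_ne_zero (ha0 i))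
        (Finset.empty_subset S0) hs1 hs2 hα hβ hg hcK P.rep_nonzero g1 hA g2
      refine ⟨IQ, fun _ => ⟨k1, k2, k3, ?_⟩⟩
      refine k4.trans (le_of_eq ?_)
      rw [hY, hc2, hκ]
      ring
    · exact ⟨default, fun h => absurd h hP⟩
  choose g hgP using hchoice
  set QQ : Finset (Finset (FinitePlace K)) := PP.image fun P => (g P).2 with hQQ
  have hQcard : (QQ.card : ℝ) ≤ Real.exp (dd * A2 + (1 + ε) * Y) := by
    apply hsets K Y
    intro Q hQ
    obtain ⟨P, hP, rfl⟩ := mem_image.1 hQ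
    exact (hgP P hP).2.2.2
  have himg : ((PP.image g).card : ℝ) ≤ ch * Real.exp (dd * A2 + (1 + ε) * Y) := by
    have hsub : PP.image g ⊆ (powersetCard (n + 1) (univ : Finset (Fin r))) ×ˢ QQ := by
      intro IQ hIQ
      obtain ⟨P, hP, rfl⟩ := mem_image.1 hIQ
      rw [mem_product]
      exact ⟨mem_powersetCard.2 ⟨subset_univ _, (hgP P hP).1⟩, mem_image_of_mem _ hP⟩
    have h3 := card_le_card hsub
    rw [card_product, card_powersetCard, card_univ, Fintype.card_fin] at h3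
    calc ((PP.image g).card : ℝ) ≤ ((r.choose (n + 1) * QQ.card : ℕ) : ℝ) := by exact_mod_cast h3
      _ = ch * QQ.card := by push_cast; rfl
      _ ≤ _ := mul_le_mul_of_nonneg_left hQcard hchpos.le
  set F : ℝ := Real.exp (((n + 1 : ℕ) : ℝ) * (dd * A1 + δ' * (dd * X) + δ' * (Y + dd * A0))) with hF
  have hF0 : 0 ≤ F := (Real.exp_pos _).le
  set B : ℝ := Real.exp (dd * X) with hB
  have hB1 : 1 ≤ B := Real.one_le_exp (by positivity)
  have hfib : ∀ IQ ∈ PP.image g, (PP.filter fun P => g P = IQ).card ≤ ⌊F⌋₊ := by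
    intro IQ hIQ
    apply Nat.le_floor
    obtain ⟨P0, hP0, rfl⟩ := mem_image.1 hIQ
    have h3 := hfib' K B hB1 (g P0).1 (hgP P0 hP0).1 ((g P0).2 ∪ S0)
      (PP.filter fun P => g P = g P0) (by
      intro P hP
      obtain ⟨hP1, hP2⟩ := mem_filter.1 hP
      obtain ⟨g1, g2, g3⟩ := hPP P hP1
      refine ⟨g1, ?_, ?_⟩
      · have hm0 : 0 < mulHeight P.rep := by positivity
        rw [hB, ← Real.log_le_iff_le_exp hm0]
        exact g2
      · rw [← hP2]
        exact (hgP P hP1).2.2.1)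
    refine h3.trans ?_
    have hprod : ∏ v ∈ (g P0).2 ∪ S0, NN v ≤ Real.exp (Y + dd * A0) := by
      rw [prod_union (hgP P0 hP0).2.1]
      have e : ∀ T : Finset (FinitePlace K), ∏ v ∈ T, NN v = Real.exp (∑ v ∈ T, Real.log (NN v)) := by
        intro T
        rw [Real.exp_sum]
        exact Finset.prod_congr rfl fun v _ => (Real.exp_log (NN_pos v)).symm
      rw [e, e, ← Real.exp_add]
      exact Real.exp_le_exp.2 (add_le_add (hgP P0 hP0).2.2.2 hS0W)
    have hp0 : 0 ≤ ∏ v ∈ (g P0).2 ∪ S0, NN v := prod_nonneg fun v _ => (NN_pos v).le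
    have h4 : (∏ v ∈ (g P0).2 ∪ S0, NN v) ^ δ' ≤ Real.exp (δ' * (Y + dd * A0)) := by
      refine (Real.rpow_le_rpow hp0 hprod hδ'0.le).trans (le_of_eq ?_)
      rw [← Real.exp_mul, mul_comm]
    have h5 : B ^ δ' = Real.exp (δ' * (dd * X)) := by
      rw [hB, ← Real.exp_mul, mul_comm]
    have hFe : F = Real.exp (dd * A1 + δ' * (dd * X) + δ' * (Y + dd * A0)) ^ (n + 1) := by
      rw [hF]
      exact Real.exp_nat_mul _ _
    rw [hFe, h5]
    apply pow_le_pow_left₀
    · have := Real.rpow_nonneg hp0 δ'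
      positivity
    · rw [Real.exp_add, Real.exp_add]
      exact mul_le_mul_of_nonneg_left h4 (by positivity)
  have htot := card_le_mul_card_image PP ⌊F⌋₊ hfib
  calc (PP.card : ℝ) ≤ ((⌊F⌋₊ * (PP.image g).card : ℕ) : ℝ) := by exact_mod_cast htot
    _ = (⌊F⌋₊ : ℝ) * ((PP.image g).card : ℝ) := by push_cast; rfl
    _ ≤ F * (ch * Real.exp (dd * A2 + (1 + ε) * Y)) :=
        mul_le_mul (Nat.floor_le hF0) himg (Nat.cast_nonneg _) hF0
    _ = Real.exp (((n + 1 : ℕ) : ℝ) * (dd * A1 + δ' * (dd * X) + δ' * (Y + dd * A0)) +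
          (Real.log ch + (dd * A2 + (1 + ε) * Y))) := by
        have e0 : F * (ch * Real.exp (dd * A2 + (1 + ε) * Y)) =
            F * (Real.exp (Real.log ch) * Real.exp (dd * A2 + (1 + ε) * Y)) := by
          rw [Real.exp_log hchpos]
        rw [e0, ← Real.exp_add, hF, ← Real.exp_add]
    _ ≤ _ := by
        apply Real.exp_le_exp.2
        have e1 : Real.log ch ≤ dd * Real.log ch := by
          have : 0 ≤ Real.log ch := Real.log_nonneg hch1
          nlinarith
        have e2 : ((n + 1 : ℕ) : ℝ) * (δ' * (1 + κ)) + ε * κ ≤ δ := by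
          have k1 : δ' ≤ δ / (2 * ((n + 1 : ℕ) : ℝ) * (1 + κ)) := min_le_right _ _
          have k2 : ((n + 1 : ℕ) : ℝ) * (δ' * (1 + κ)) ≤ δ / 2 := by
            calc ((n + 1 : ℕ) : ℝ) * (δ' * (1 + κ)) ≤
                ((n + 1 : ℕ) : ℝ) * (δ / (2 * ((n + 1 : ℕ) : ℝ) * (1 + κ)) * (1 + κ)) := by
                  apply mul_le_mul_of_nonneg_left _ hn0.le
                  exact mul_le_mul_of_nonneg_right k1 (by positivity)
              _ = δ / 2 := by field_simp
          have k3 : ε * κ ≤ δ / 2 := by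
            rw [hε, div_mul_eq_mul_div, div_le_div_iff₀ (by positivity) (by norm_num)]
            nlinarith
          linarith
        have e3 : dd * X * (((n + 1 : ℕ) : ℝ) * (δ' * (1 + κ)) + ε * κ) ≤ dd * X * δ :=
          mul_le_mul_of_nonneg_left e2 (by positivity)
        rw [hY]
        nlinarith
end Pool.Agent.R366.UC
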