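import Mathlib
import Pool.Agent.R366.UC.Low

/-!
# Lower bound for the number of all points of projective space off an arrangement
-/

set_option autoImplicit false

open NumberField Height Finset IsDedekindDomain LinearAlgebra.Projectivization
open scoped Classical

namespace Pool.Agent.R366.UC

open Pool.Agent.H57R3.VJ Pool.Agent.Y733.UD

/-- height of an integral vector in a box -/
lemma height_box {K : Type} [Field K] [NumberField K] {N : ℕ} {x : Fin (N + 1) → K} (hx : x ≠ 0)
    (hint : ∀ i, ∃ a : 𝓞 K, (a : K) = x i) {M : ℝ} (hM : ∀ i, ∀ w : InfinitePlace K, w (x i) < Real.exp M) :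
    Real.log (mulHeight x) ≤ Module.finrank ℚ K * M := by
  have hm0 : 0 < mulHeight x := by positivity
  rw [Real.log_le_iff_le_exp hm0, NumberField.mulHeight_eq hx]
  have h1 : ∏ w : InfinitePlace K, (⨆ i, w (x i)) ^ w.mult ≤ Real.exp M ^ Module.finrank ℚ K := by
    rw [← InfinitePlace.sum_mult_eq, ← Finset.prod_pow_eq_pow_sum]
    refine Finset.prod_le_prod (fun w _ => pow_nonneg (Real.iSup_nonneg fun i => apply_nonneg _ _) _)
      fun w _ => ?_
    exact pow_le_pow_left₀ (Real.iSup_nonneg fun i => apply_nonneg _ _)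
      (ciSup_le fun i => (hM i w).le) _
  have h2 : ∏ᶠ v : FinitePlace K, ⨆ i, v (x i) ≤ 1 := by
    have hfin := sv_fin (K := K) hx
    have hfin' : (Function.mulSupport fun v : FinitePlace K => ⨆ i, v (x i)).Finite := hfin
    rw [finprod_eq_prod_of_mulSupport_subset (s := hfin'.toFinset) _ (by
      rw [Set.Finite.coe_toFinset])]
    refine Finset.prod_le_one (fun v _ => Real.iSup_nonneg fun i => apply_nonneg _ _) fun v _ => ?_
    refine ciSup_le fun i => ?_
    obtain ⟨a, ha⟩ := hint i
    rw [← ha]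
    exact fp_int_le v a.2
  rw [Real.exp_nat_mul]
  calc _ ≤ Real.exp M ^ Module.finrank ℚ K * 1 :=
        mul_le_mul h1 h2 (finprod_nonneg fun v => Real.iSup_nonneg fun i => apply_nonneg _ _)
          (by positivity)
    _ = _ := mul_one _

section Pts

variable {K : Type} [Field K] [NumberField K] {m' r : ℕ}

/-- the vector of a pair and of further coordinates -/
def vec (z : (K × K) × (Fin m' → K)) : Fin (m' + 2) → K :=
  Fin.cons z.1.2 (Fin.cons z.1.1 z.2)

lemma vec_zero (z : (K × K) × (Fin m' → K)) : vec z 0 = z.1.2 := rfl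

lemma vec_one (z : (K × K) × (Fin m' → K)) : vec z 1 = z.1.1 := rfl

lemma vec_succ (z : (K × K) × (Fin m' → K)) (j : Fin m') : vec z j.succ.succ = z.2 j := rfl

lemma lin_vec (b : Fin (m' + 2) → K) (z : (K × K) × (Fin m' → K)) :
    lin b (vec z) = b 0 * z.1.2 + (b 1 * z.1.1 + ∑ j : Fin m', b j.succ.succ * z.2 j) := by
  unfold lin
  rw [Fin.sum_univ_succ, Fin.sum_univ_succ]
  rfl

end Pts

/-- the number of vectors on one hyperplane -/
lemma bad_vec {K : Type} [Field K] {m' : ℕ} {b : Fin (m' + 2) → K} (hb : b ≠ 0)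
    (E : Finset (K × K)) (hE : ∀ p ∈ E, p.1 ≠ 0 ∧ p.2 ≠ 0)
    (hinj : Set.InjOn (fun p : K × K => p.1 / p.2) (E : Set (K × K))) (S : Finset K)
    {R : ℕ} (hRE : R ≤ E.card) (hRS : R ≤ S.card) :
    R * ((E ×ˢ Fintype.piFinset fun _ : Fin m' => S).filter fun z => lin b (vec z) = 0).card ≤
      E.card * S.card ^ m' := by
  set G := (E ×ˢ Fintype.piFinset fun _ : Fin m' => S).filter fun z => lin b (vec z) = 0 with hG
  have hGm : ∀ z ∈ G, z.1 ∈ E ∧ (∀ j, z.2 j ∈ S) ∧
      b 0 * z.1.2 + (b 1 * z.1.1 + ∑ j : Fin m', b j.succ.succ * z.2 j) = 0 := by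
    intro z hz
    obtain ⟨h1, h2⟩ := Finset.mem_filter.1 hz
    obtain ⟨h3, h4⟩ := Finset.mem_product.1 h1
    rw [Fintype.mem_piFinset] at h4
    refine ⟨h3, h4, ?_⟩
    have h5 : lin b (vec z) = b 0 * z.1.2 + (b 1 * z.1.1 + ∑ j : Fin m', b j.succ.succ * z.2 j) := by
      unfold lin
      rw [Fin.sum_univ_succ, Fin.sum_univ_succ]
      rfl
    rw [← h5]
    exact h2
  by_cases hl : ∃ l : Fin m', b l.succ.succ ≠ 0
  · obtain ⟨l, hl⟩ := hl
    have hm' : 0 < m' := Fin.pos l
    obtain ⟨m, rfl⟩ : ∃ m, m' = m + 1 := ⟨m' - 1, by omega⟩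
    have hc : G.card ≤ (E ×ˢ Fintype.piFinset fun _ : Fin m => S).card := by
      refine Finset.card_le_card_of_injOn (fun z => (z.1, fun j => z.2 (l.succAbove j))) ?_ ?_
      · intro z hz
        obtain ⟨h1, h2, _⟩ := hGm z (Finset.mem_coe.1 hz)
        rw [Finset.mem_coe, Finset.mem_product, Fintype.mem_piFinset]
        exact ⟨h1, fun j => h2 _⟩
      · intro z hz z' hz' hzz
        obtain ⟨h1, h2, h3⟩ := hGm z (Finset.mem_coe.1 hz)
        obtain ⟨h1', h2', h3'⟩ := hGm z' (Finset.mem_coe.1 hz')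
        obtain ⟨e1, e2⟩ := Prod.mk.inj hzz
        have e3 : ∀ j, z.2 (l.succAbove j) = z'.2 (l.succAbove j) := fun j => congrFun e2 j
        rw [Fin.sum_univ_succAbove _ l] at h3 h3'
        have e4 : ∑ j : Fin m, b (l.succAbove j).succ.succ * z.2 (l.succAbove j) =
            ∑ j : Fin m, b (l.succAbove j).succ.succ * z'.2 (l.succAbove j) :=
          Finset.sum_congr rfl fun j _ => by rw [e3 j]
        have e5 : z.2 l = z'.2 l := by
          have : b l.succ.succ * z.2 l = b l.succ.succ * z'.2 l := by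
            rw [e1, e4] at h3
            have h4 := h3.trans h3'.symm
            exact add_right_cancel (add_left_cancel (add_left_cancel h4))
          exact mul_left_cancel₀ hl this
        refine Prod.ext e1 ?_
        funext j
        rcases Fin.eq_self_or_eq_succAbove l j with hj | ⟨i, hi⟩
        · rw [hj]; exact e5
        · rw [hi]; exact e3 i
    rw [Finset.card_product, Fintype.card_piFinset, Finset.prod_const, Finset.card_univ,
      Fintype.card_fin] at hc
    calc R * G.card ≤ S.card * (E.card * S.card ^ m) := Nat.mul_le_mul hRS hc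
      _ = E.card * S.card ^ (m + 1) := by ring
  · push Not at hl
    have hz0 : ∀ z ∈ G, b 0 * z.1.2 + b 1 * z.1.1 = 0 := by
      intro z hz
      have h3 := (hGm z hz).2.2
      have : ∑ j : Fin m', b j.succ.succ * z.2 j = 0 :=
        Finset.sum_eq_zero fun j _ => by rw [hl j, zero_mul]
      rw [this, add_zero] at h3
      exact h3
    have hb1 : G.Nonempty → b 1 ≠ 0 := by
      rintro ⟨z, hz⟩ h1
      have h2 := hz0 z hz
      rw [h1, zero_mul, add_zero] at h2
      have h3 := (hE _ (hGm z hz).1).2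
      rcases mul_eq_zero.1 h2 with h4 | h4
      · apply hb
        funext j
        refine Fin.cases h4 (fun j => ?_) j
        refine Fin.cases h1 (fun j => ?_) j
        exact hl j
      · exact h3 h4
    have hc : G.card ≤ (Fintype.piFinset fun _ : Fin m' => S).card := by
      refine Finset.card_le_card_of_injOn (fun z => z.2) ?_ ?_
      · intro z hz
        obtain ⟨_, h2, _⟩ := hGm z (Finset.mem_coe.1 hz)
        rw [Finset.mem_coe, Fintype.mem_piFinset]
        exact h2
      · intro z hz z' hz' hzz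
        have hz := Finset.mem_coe.1 hz
        have hz' := Finset.mem_coe.1 hz'
        refine Prod.ext ?_ hzz
        have hb1' := hb1 ⟨z, hz⟩
        have g1 := hz0 z hz
        have g2 := hz0 z' hz'
        obtain ⟨h1, _, _⟩ := hGm z hz
        obtain ⟨h1', _, _⟩ := hGm z' hz'
        apply hinj (Finset.mem_coe.2 h1) (Finset.mem_coe.2 h1')
        show z.1.1 / z.1.2 = z'.1.1 / z'.1.2
        have k1 := (hE _ h1).2
        have k2 := (hE _ h1').2
        have r1 : z.1.1 / z.1.2 = -b 0 / b 1 := by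
          rw [div_eq_div_iff k1 hb1']
          linear_combination g1
        have r2 : z'.1.1 / z'.1.2 = -b 0 / b 1 := by
          rw [div_eq_div_iff k2 hb1']
          linear_combination g2
        rw [r1, r2]
    rw [Fintype.card_piFinset, Finset.prod_const, Finset.card_univ, Fintype.card_fin] at hc
    exact Nat.mul_le_mul hRE hc

/-- **many points off an arrangement** -/
theorem low_points {k : Type} [Field k] {m' r : ℕ} {a : Fin r → Fin (m' + 2) → k}
    (ha0 : ∀ i, a i ≠ 0) {ε : ℝ} (hε : 0 < ε) (hε1 : ε ≤ 1 / 8) : ∃ A : ℝ, 0 ≤ A ∧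
    ∀ (K : Type) [Field K] [NumberField K] [Algebra k K], ∀ M : ℝ, 2 * rd K + A ≤ M →
      ∃ PP : Finset (ℙ K (Fin (m' + 2) → K)),
        (∀ P ∈ PP, (∀ i, lin (up K a i) P.rep ≠ 0) ∧
          Real.log (mulHeight P.rep) ≤ Module.finrank ℚ K * M) ∧
        Real.exp (Module.finrank ℚ K *
          (((m' : ℝ) + 2 - 4 * ε) * M - ((m' : ℝ) / 2 + 2 + ε) * rd K - A)) ≤ PP.card := by
  obtain ⟨A1, hA1, hlow⟩ := low_pairs hε (by linarith)
  set R : ℕ := 2 * r + 2 with hR
  have hl2 : 0 ≤ Real.log 2 := Real.log_nonneg (by norm_num)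
  have hl8 : 0 ≤ Real.log 8 := Real.log_nonneg (by norm_num)
  have hR1 : (1 : ℝ) ≤ (R : ℝ) + 1 := by
    have : (0 : ℝ) ≤ R := Nat.cast_nonneg _
    linarith
  have hlR : 0 ≤ Real.log ((R : ℝ) + 1) := Real.log_nonneg hR1
  set A : ℝ := A1 + Real.log 8 + Real.log ((R : ℝ) + 1) + (m' + 1) * (2 * Real.log 2) with hA
  have hA0 : 0 ≤ A := by positivity
  refine ⟨A, hA0, ?_⟩
  intro K _ _ _ M hM
  have hrd := rd_nonneg K
  set dd : ℝ := (Module.finrank ℚ K : ℝ) with hdd
  have hdd1 : 1 ≤ dd := finrank_one_le K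
  have hdd0 : 0 < dd := by linarith
  have hm'0 : (0 : ℝ) ≤ m' := Nat.cast_nonneg _
  have hA8 : Real.log 8 + rd K / 2 ≤ M := by
    have : Real.log 8 ≤ A := by
      rw [hA]
      have : 0 ≤ (m' + 1) * (2 * Real.log 2) := by positivity
      linarith
    linarith
  have hM0 : 0 ≤ M := by linarith
  obtain ⟨E, hE, hinj, hEc⟩ := hlow K M hA8
  obtain ⟨S, hS, hSc⟩ := exists_box (K := K) M
  have hlR1 : Real.log ((R : ℝ) + 1) ≤ A - A1 - 2 * Real.log 2 := by
    rw [hA]
    have : 2 * Real.log 2 ≤ (m' + 1) * (2 * Real.log 2) := by nlinarith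
    linarith
  -- sizes
  have hRE : R ≤ E.card := by
    have h1 : Real.log ((R : ℝ) + 1) ≤ dd * ((2 - 4 * ε) * M - (2 + ε) * rd K - A1) := by
      have h2 : Real.log ((R : ℝ) + 1) ≤ (2 - 4 * ε) * M - (2 + ε) * rd K - A1 := by
        have h3 : (2 - 4 * ε) * (2 * rd K + A) ≤ (2 - 4 * ε) * M :=
          mul_le_mul_of_nonneg_left hM (by linarith)
        have h4 : A ≤ (2 - 4 * ε) * A := by nlinarith
        have h5 : (2 + ε) * rd K ≤ (2 - 4 * ε) * (2 * rd K) := by nlinarith
        linarith
      nlinarith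
    have h2 : (R : ℝ) + 1 ≤ E.card := by
      refine le_trans ?_ hEc
      rw [← Real.log_le_iff_le_exp (by linarith)]
      exact h1
    have h3 : (R : ℝ) ≤ E.card := by linarith
    exact_mod_cast h3
  have hSexp : Real.log ((R : ℝ) + 1) ≤ dd * (M - Real.log 2 - rd K / 2) := by
    have h2 : Real.log ((R : ℝ) + 1) ≤ M - Real.log 2 - rd K / 2 := by
      linarith
    nlinarith
  have hSbig : (R : ℝ) + 1 ≤ Real.exp (dd * (M - Real.log 2 - rd K / 2)) := by
    rw [← Real.log_le_iff_le_exp (by linarith)]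
    exact hSexp
  have hRS : R ≤ S.card := by
    have h3 : (R : ℝ) ≤ S.card := by linarith
    exact_mod_cast h3
  have hSlow : Real.exp (dd * (M - 2 * Real.log 2 - rd K / 2)) ≤ S.card := by
    have hR2 : (2 : ℝ) ≤ (R : ℝ) + 1 := by
      have : (1 : ℝ) ≤ R := by
        have : 1 ≤ R := by omega
        exact_mod_cast this
      linarith
    have h1 : Real.exp (dd * (M - 2 * Real.log 2 - rd K / 2)) =
        Real.exp (dd * (M - Real.log 2 - rd K / 2)) * Real.exp (-(dd * Real.log 2)) := by
      rw [← Real.exp_add]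
      congr 1
      ring
    have h2 : Real.exp (-(dd * Real.log 2)) ≤ 1 / 2 := by
      have h3 : Real.log 2 ≤ dd * Real.log 2 := by nlinarith
      calc Real.exp (-(dd * Real.log 2)) ≤ Real.exp (-Real.log 2) := Real.exp_le_exp.2 (by linarith)
        _ = 1 / 2 := by rw [Real.exp_neg, Real.exp_log (by norm_num)]; norm_num
    have h4 : 0 < Real.exp (dd * (M - Real.log 2 - rd K / 2)) := Real.exp_pos _
    rw [h1]
    nlinarith
  -- the vectors
  set T : Finset ((K × K) × (Fin m' → K)) := E ×ˢ Fintype.piFinset fun _ : Fin m' => S with hT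
  have hTc : T.card = E.card * S.card ^ m' := by
    rw [hT, Finset.card_product, Fintype.card_piFinset, Finset.prod_const, Finset.card_univ,
      Fintype.card_fin]
  set G := T.filter fun z => ∀ i, lin (up K a i) (vec z) ≠ 0 with hG
  have hGc : T.card ≤ 2 * G.card := by
    have h1 : T.card = G.card + (T.filter fun z => ¬ ∀ i, lin (up K a i) (vec z) ≠ 0).card :=
      (Finset.card_filter_add_card_filter_not _).symm
    have h2 : (T.filter fun z => ¬ ∀ i, lin (up K a i) (vec z) ≠ 0) ⊆
        Finset.univ.biUnion fun i => T.filter fun z => lin (up K a i) (vec z) = 0 := by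
      intro z hz
      obtain ⟨h3, h4⟩ := Finset.mem_filter.1 hz
      push Not at h4
      obtain ⟨i, hi⟩ := h4
      exact Finset.mem_biUnion.2 ⟨i, Finset.mem_univ i, Finset.mem_filter.2 ⟨h3, hi⟩⟩
    have h3 : (T.filter fun z => ¬ ∀ i, lin (up K a i) (vec z) ≠ 0).card ≤
        ∑ i, (T.filter fun z => lin (up K a i) (vec z) = 0).card :=
      (Finset.card_le_card h2).trans Finset.card_biUnion_le
    have h4 : ∀ i, R * (T.filter fun z => lin (up K a i) (vec z) = 0).card ≤ T.card := by
      intro i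
      rw [hTc]
      exact bad_vec (up_ne_zero (ha0 i)) E (fun p hp => ⟨(hE p hp).1.1, (hE p hp).2.1⟩) hinj S hRE hRS
    have h5 : R * ∑ i, (T.filter fun z => lin (up K a i) (vec z) = 0).card ≤ r * T.card := by
      rw [Finset.mul_sum]
      refine (Finset.sum_le_sum fun i _ => h4 i).trans (le_of_eq ?_)
      rw [Finset.sum_const, Finset.card_univ, Fintype.card_fin, smul_eq_mul]
    have h6 : R * (T.filter fun z => ¬ ∀ i, lin (up K a i) (vec z) ≠ 0).card ≤ r * T.card :=
      (Nat.mul_le_mul_left R h3).trans h5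
    by_contra hlt
    push Not at hlt
    have h7 : T.card < 2 * (T.filter fun z => ¬ ∀ i, lin (up K a i) (vec z) ≠ 0).card := by omega
    rw [hR] at h6
    nlinarith
  have hvne : ∀ z ∈ T, vec z ≠ 0 := by
    intro z hz h0
    have h1 := (Finset.mem_product.1 hz).1
    exact (hE _ h1).2.1 (by rw [← vec_zero z, h0]; rfl)
  -- the points
  let f : (K × K) × (Fin m' → K) → ℙ K (Fin (m' + 2) → K) := fun z =>
    if h : vec z ≠ 0 then Projectivization.mk K (vec z) h else
      Projectivization.mk K (Function.const _ 1) (by intro h0; exact one_ne_zero (congrFun h0 0))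
  have hf : ∀ z ∈ T, ∀ h : vec z ≠ 0, f z = Projectivization.mk K (vec z) h := by
    intro z _ h
    exact dif_pos h
  have hfinj : Set.InjOn f (T : Set ((K × K) × (Fin m' → K))) := by
    intro z hz z' hz' hzz
    have hz := Finset.mem_coe.1 hz
    have hz' := Finset.mem_coe.1 hz'
    rw [hf z hz (hvne z hz), hf z' hz' (hvne z' hz'), Projectivization.mk_eq_mk_iff'] at hzz
    obtain ⟨u, hu⟩ := hzz
    have h1 := (Finset.mem_product.1 hz).1
    have h1' := (Finset.mem_product.1 hz').1
    have e0 : u * z'.1.2 = z.1.2 := by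
      have := congrFun hu 0
      simpa [Pi.smul_apply, vec_zero] using this
    have e1 : u * z'.1.1 = z.1.1 := by
      have := congrFun hu 1
      simpa [Pi.smul_apply, vec_one] using this
    have hz2 := (hE _ h1).2.1
    have hz2' := (hE _ h1').2.1
    have hu0 : u ≠ 0 := by
      intro h0
      rw [h0, zero_mul] at e0
      exact hz2 e0.symm
    have hzz1 : z.1 = z'.1 := by
      apply hinj (Finset.mem_coe.2 h1) (Finset.mem_coe.2 h1')
      show z.1.1 / z.1.2 = z'.1.1 / z'.1.2
      rw [← e0, ← e1]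
      exact mul_div_mul_left _ _ hu0
    have hu1 : u = 1 := by
      rw [hzz1] at e0
      exact mul_right_cancel₀ hz2' (by rw [e0, one_mul])
    refine Prod.ext hzz1 ?_
    funext j
    have := congrFun hu j.succ.succ
    rw [Pi.smul_apply, hu1, one_smul, vec_succ, vec_succ] at this
    exact this.symm
  have hlinrep : ∀ z ∈ T, ∀ i, lin (up K a i) (vec z) ≠ 0 → lin (up K a i) (f z).rep ≠ 0 := by
    intro z hz i hi
    rw [hf z hz (hvne z hz)]
    obtain ⟨u, hu⟩ := Projectivization.exists_smul_eq_mk_rep K (vec z) (hvne z hz)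
    rw [← hu]
    have : lin (up K a i) (u • vec z) = (u : K) * lin (up K a i) (vec z) := by
      unfold lin
      rw [Finset.mul_sum]
      refine Finset.sum_congr rfl fun j _ => ?_
      have : (u • vec z) j = (u : K) * vec z j := rfl
      rw [this]
      ring
    rw [this]
    exact mul_ne_zero u.ne_zero hi
  refine ⟨G.image f, ?_, ?_⟩
  · intro P hP
    obtain ⟨z, hz, rfl⟩ := Finset.mem_image.1 hP
    obtain ⟨hzT, hzl⟩ := Finset.mem_filter.1 hz
    refine ⟨fun i => hlinrep z hzT i (hzl i), ?_⟩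
    have h1 := (Finset.mem_product.1 hzT).1
    have h2 := (Finset.mem_product.1 hzT).2
    rw [Fintype.mem_piFinset] at h2
    have hcoord : ∀ i : Fin (m' + 2), (∃ a : 𝓞 K, (a : K) = vec z i) ∧
        ∀ w : InfinitePlace K, w (vec z i) < Real.exp M := by
      intro i
      refine Fin.cases ⟨(hE _ h1).2.2.1, (hE _ h1).2.2.2⟩ (fun i => ?_) i
      refine Fin.cases ⟨(hE _ h1).1.2.1, (hE _ h1).1.2.2⟩ (fun i => ?_) i
      exact ⟨(hS _ (h2 i)).2.1, (hS _ (h2 i)).2.2⟩
    have h3 := height_box (K := K) (hvne z hzT) (fun i => (hcoord i).1) (M := M) fun i => (hcoord i).2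
    refine le_trans (le_of_eq ?_) h3
    rw [hf z hzT (hvne z hzT)]
    congr 1
    have := Projectivization.mulHeight_mk (K := K) (hvne z hzT)
    rw [← this]
    conv_rhs => rw [← (Projectivization.mk K (vec z) (hvne z hzT)).mk_rep]
    rw [Projectivization.mulHeight_mk]
  · have hcard : (G.image f).card = G.card :=
      Finset.card_image_of_injOn (hfinj.mono (by
        intro z hz
        exact Finset.mem_coe.2 (Finset.mem_filter.1 (Finset.mem_coe.1 hz)).1))
    rw [hcard]
    have h1 : ((T.card : ℕ) : ℝ) ≤ 2 * G.card := by exact_mod_cast hGc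
    have h2 : (T.card : ℝ) = E.card * (S.card : ℝ) ^ m' := by
      rw [hTc]
      push_cast
      rfl
    have h3 : Real.exp (dd * ((2 - 4 * ε) * M - (2 + ε) * rd K - A1)) *
        Real.exp (dd * (M - 2 * Real.log 2 - rd K / 2)) ^ m' ≤ E.card * (S.card : ℝ) ^ m' :=
      mul_le_mul hEc (pow_le_pow_left₀ (Real.exp_pos _).le hSlow _) (by positivity)
        (Nat.cast_nonneg _)
    have h4 : Real.exp (dd * (((m' : ℝ) + 2 - 4 * ε) * M - ((m' : ℝ) / 2 + 2 + ε) * rd K - A)) * 2 ≤
        Real.exp (dd * ((2 - 4 * ε) * M - (2 + ε) * rd K - A1)) *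
        Real.exp (dd * (M - 2 * Real.log 2 - rd K / 2)) ^ m' := by
      have h5 : (2 : ℝ) = Real.exp (Real.log 2) := (Real.exp_log (by norm_num)).symm
      have h6 : Real.exp (dd * (M - 2 * Real.log 2 - rd K / 2)) ^ m' =
          Real.exp (m' * (dd * (M - 2 * Real.log 2 - rd K / 2))) := (Real.exp_nat_mul _ _).symm
      rw [h6, ← Real.exp_add]
      calc Real.exp (dd * (((m' : ℝ) + 2 - 4 * ε) * M - ((m' : ℝ) / 2 + 2 + ε) * rd K - A)) * 2
          = Real.exp (dd * (((m' : ℝ) + 2 - 4 * ε) * M - ((m' : ℝ) / 2 + 2 + ε) * rd K - A)) *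
              Real.exp (Real.log 2) := by rw [← h5]
        _ = Real.exp (dd * (((m' : ℝ) + 2 - 4 * ε) * M - ((m' : ℝ) / 2 + 2 + ε) * rd K - A) +
              Real.log 2) := (Real.exp_add _ _).symm
        _ ≤ _ := by
            apply Real.exp_le_exp.2
            have h7 : Real.log 2 ≤ dd * Real.log 2 := by nlinarith
            have h8 : A1 + 2 * Real.log 2 + m' * (2 * Real.log 2) ≤ A := by
              rw [hA]
              linarith
            have h9 : dd * (A1 + 2 * Real.log 2 + m' * (2 * Real.log 2)) ≤ dd * A :=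
              mul_le_mul_of_nonneg_left h8 hdd0.le
            have h10 : 0 ≤ dd * Real.log 2 := by positivity
            nlinarith
    linarith

end Pool.Agent.R366.UC
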